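import Pool.Agent.Y627.PT.Eta

set_option autoImplicit false

/-!
# Joint parity patterns of eta-quotients along dilates and progressions (MP_a3366f_nt)

Let `F_1, …, F_k` be eta-quotients, `F_j = ∏ f_d ^ (e_{j,d})`, `s_j = ∑ d e_{j,d}`, and let
`m_1, …, m_k ≥ 1`. Assume that `24 ∤ s_j` and, with `g = gcd(m_j, m_l)`, that
`s_j (m_l / g) ≢ s_l (m_j / g) (mod 24)` for `j ≠ l` (equivalently: no exponent
`(s_j + 24 i) / (24 m_j)` is congruent modulo 1 to an exponent `(s_l + 24 i') / (24 m_l)`). Let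
`a_j(n)` be the coefficients of `F_j`. Then for every `M ≥ 1` there is a constant `C` such that every
linear combination `∑_j ∑_{i < K} c_{j,i} a_j(m_j n + i)` modulo 2, `n ≡ ρ (mod M)`, in which some
`c_{j,i} ≠ 0` belongs to a class `m_j ρ + i` modulo `m_j M` where `a_j` is not identically even, takes
both values on the `n ≡ ρ (mod M)` in every interval `[A, C (A + K)]`.

Examples: `F = 1 / f_1 ^ t` with `24 ∤ t` (multipartitions, in particular all odd `t`), `m = 1`;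
jointly `1 / f_1 ^ t`, `1 ≤ t ≤ 23`; the `ℓ`-regular partitions `f_ℓ / f_1`, jointly for
`2 ≤ ℓ ≤ 24`; jointly the `p_t(m n + i)`, `1 ≤ m ≤ 24`, for fixed `t` prime to 6.

Method. `D = q ∏ (1 - q ^ n) ^ 24` modulo 2, `K` the algebraic closure of `F_2(D)`. (1) Transcendence
measure of `D` (see `JointPatterns`). (2) `D(q ^ d)` lies in `K`: by the Hecke operators `T_ℓ` modulo
2 (starting file `H307R2/OP`) `T_ℓ D = 0` and `T_ℓ (D ^ ℓ)` is a nonconstant polynomial in `D`, and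
`(T_ℓ f)(q ^ ℓ) = f(q ^ (ℓ ^ 2)) + ∑ f(ζ q)` over the `ℓ`-th roots of unity, where `D(ζ q)` is in `K`
(starting file `TH693/QQ`). (3) All sections modulo `M` of `f_1`, `1 / f_1`, hence of all
eta-quotients `F`, are in `q ^ (-s / 24) K` (closure of this property under products and
`q → q ^ d`; the moduli `2 ^ k` by `f_1 = f_1 ^ (2 ^ k) f_1 ^ (1 - 2 ^ k)`). (4) `q` is transcendental
over `K`, so a linear relation over `F_2(q)` splits according to the exponents modulo 1. (5) Liouville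
relative to `F_2(q, D)`.
-/

namespace Pool.Agent.Results.MP_a3366f_nt.EtaQuotients

open PowerSeries

/-- `f_d = ∏_{i ≥ 1} (1 - q ^ (d i))`: Mathlib's series `pentagonalSeries ℤ = ∏_{i ≥ 1} (1 - q ^ i)`
in the variable `q ^ d` -/
noncomputable def f (d : ℕ) : ℤ⟦X⟧ :=
  PowerSeries.mk fun n => if d ∣ n then coeff (n / d) (pentagonalSeries ℤ) else 0

/-- `F = ∏_{d ∈ D} f_d ^ (u_d - v_d)`, an eta-quotient, and `s = ∑_{d ∈ D} d (u_d - v_d)` -/
def IsEtaQuotient (F : ℤ⟦X⟧) (s : ℤ) : Prop :=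
  ∃ (D : Finset ℕ) (u v : ℕ → ℕ), 0 ∉ D ∧ F * ∏ d ∈ D, f d ^ v d = ∏ d ∈ D, f d ^ u d ∧
    s = ∑ d ∈ D, (d : ℤ) * ((u d : ℤ) - v d)

theorem result (k : ℕ) (F : Fin k → ℤ⟦X⟧) (s : Fin k → ℤ) (hF : ∀ j, IsEtaQuotient (F j) (s j))
    (m : Fin k → ℕ) (hm : ∀ j, 0 < m j) (h24 : ∀ j, ¬ (24 : ℤ) ∣ s j)
    (hsep : ∀ j l, j ≠ l → ¬ (24 : ℤ) ∣ s j * (m l / Nat.gcd (m j) (m l) : ℕ) -
      s l * (m j / Nat.gcd (m j) (m l) : ℕ)) (M : ℕ) (hM : 0 < M) :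
    ∃ C : ℕ, ∀ (K : ℕ) (c : Fin k → ℕ → ZMod 2) (ρ : ℕ),
      (∃ j, ∃ i < K, c j i ≠ 0 ∧ ∃ N, N ≡ m j * ρ + i [MOD m j * M] ∧ Odd (coeff N (F j))) →
      ∀ (κ : ZMod 2) (A : ℕ), ∃ n, A ≤ n ∧ n ≤ C * (A + K) ∧ n ≡ ρ [MOD M] ∧
        ∑ j, ∑ i ∈ Finset.range K, c j i * ((coeff (m j * n + i) (F j) : ℤ) : ZMod 2) = κ := by
  have hS : ∀ j, Pool.Agent.Y627.PT.Sec ((F j).map (Int.castRingHom (ZMod 2))) (-(s j)) := by
    intro j
    obtain ⟨D, u, v, hD, hrel, hs⟩ := hF j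
    rw [hs]
    exact Pool.Agent.Y627.PT.sec_eta D u v hD (F j) hrel
  obtain ⟨C, hC⟩ := Pool.Agent.Y627.PT.main
    (fun j => (F j).map (Int.castRingHom (ZMod 2))) (fun j => -(s j)) hS m hm
    (fun j h => h24 j ((dvd_neg).1 h)) (fun j l hjl h => hsep j l hjl (by
      have : s j * (m l / Nat.gcd (m j) (m l) : ℕ) - s l * (m j / Nat.gcd (m j) (m l) : ℕ) =
        -(-(s j) * (m l / Nat.gcd (m j) (m l) : ℕ) - -(s l) * (m j / Nat.gcd (m j) (m l) : ℕ)) := by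
          ring
      rw [this]
      exact (dvd_neg).2 h)) M hM
  refine ⟨C, fun K c ρ hc κ A => ?_⟩
  obtain ⟨n, h1, h2, h3, h4⟩ := hC K c ρ (by
    obtain ⟨j, i, hi, hci, N, hN, hodd⟩ := hc
    exact ⟨j, i, hi, hci, Pool.Agent.Y627.PT.proj_ne_of_odd hN hodd⟩) κ A
  refine ⟨n, h1, h2, h3, ?_⟩
  rw [← h4]
  refine Finset.sum_congr rfl fun j _ => Finset.sum_congr rfl fun i _ => ?_
  rw [PowerSeries.coeff_map]
  rfl

end Pool.Agent.Results.MP_a3366f_nt.EtaQuotients
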