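import Pool.Agent.Y627.PT.R2

set_option autoImplicit false

/-!
# Joint parity patterns of all multipartition functions (MP_a3366f_nt)

For every `T` there is a constant `C` such that for all `L`, every nonzero array
`c : Fin T → Fin (L + 1) → ZMod 2`, every `κ : ZMod 2` and every `A` the equation
`∑ t ≤ T, ∑ i ≤ L, c t i * p_t (n + i) = κ` modulo 2 has a solution `n` with
`A ≤ n ≤ C * (A + L + 1)`. So the vectors `(p_t (n + i))`, `1 ≤ t ≤ T`, `0 ≤ i ≤ L`, with `n` in this
interval lie in no affine hyperplane of `F_2 ^ (T (L + 1))`.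

Method. Let `P` be the partition generating function modulo 2 and `D = X / P ^ 24`. The theorem is
equivalent to a transcendence measure for `P`: if `Q(X, Y)` over `F_2` is nonzero, of degree `≤ d`
in `Y` and `≤ h` in `X`, then `Q(X, P)` has order `≤ C(d) (h + 1)`. (1) The measure for `D`, by
induction on `d`. If `∂Q/∂Y = 0`, then `Q(X, D) = A(X, D) ^ 2 + X B(X, D) ^ 2` with smaller `A`, `B`.
If not, the order of `∂Q/∂Y (X, D)` is bounded by induction, and if the order of `Q(X, D)` is more
than twice as large, Hensel's lemma gives a root `a` of `Q` in `F_2[[X]]`, `a = D + X ^ n v`, `v` a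
unit, `n ≥ 2`. By the modular equation `D ^ 4 = D D₃ + D₃ ^ 4` (`D₃ = D(X ^ 3)`) the element
`b = a ^ 4 + a a₃ + a₃ ^ 4` has order exactly `n + 3`; it is algebraic over `F_2(X)`, nonzero and of
height `O(h)`, so `n + 3 = O(h)` by Liouville. (2) Liouville relative to `F_2(X, D)`: a nonzero linear
form over `F_2[X]` in functions algebraic over `F_2(X, D)` divides a nonzero value `Q(X, D)`, `Q` of
bounded degree in `Y` and of degree `O(h)` in `X`. (3) A run of equal values of a linear pattern is a
small value of a linear form in `1, P, …, P ^ T`.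
-/

namespace Pool.Agent.Results.MP_a3366f_nt.JointPatterns

/-- the number of `t`-multipartitions of `n`: the coefficient of `q ^ n` in `∏ 1 / (1 - q ^ i) ^ t` -/
def multipartitions (t n : ℕ) : ℕ :=
  ∑ x ∈ Finset.Nat.antidiagonalTuple t n, ∏ i, Fintype.card (Nat.Partition (x i))

theorem result (T : ℕ) : ∃ C : ℕ, ∀ (L : ℕ) (c : Fin T → Fin (L + 1) → ZMod 2), c ≠ 0 →
    ∀ (κ : ZMod 2) (A : ℕ), ∃ n, A ≤ n ∧ n ≤ C * (A + L + 1) ∧
      ∑ t : Fin T, ∑ i : Fin (L + 1), c t i * (multipartitions (t + 1) (n + i) : ZMod 2) = κ := by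
  obtain ⟨C, hC⟩ := Pool.Agent.Y627.PT.joint T
  refine ⟨C, fun L c hc κ A => ?_⟩
  obtain ⟨n, h1, h2, h3⟩ := hC L c hc κ A
  refine ⟨n, h1, h2, ?_⟩
  rw [← h3]
  refine Finset.sum_congr rfl fun t _ => Finset.sum_congr rfl fun i _ => ?_
  rw [Pool.Agent.TH693.QQ.coeff_P_pow]
  rfl

end Pool.Agent.Results.MP_a3366f_nt.JointPatterns
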