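import Pool.Agent.Y927.PT.E

set_option autoImplicit false

/-!
# Linear patterns in the parity of multipartition numbers occur many times

Let `p_t n` be the number of `t`-multipartitions of `n`, where `t = 4 ^ j - 1` or `t = 3 (4 ^ j - 1)`
for some `j ≥ 1`, that is `t = 3, 15, 63, ...` or `t = 9, 45, 189, ...`. For every `ε > 0` there is
`c > 0`, which does not depend on `t`, such that for all `X ≥ 10 ^ 9 t ^ 2` and EVERY nonempty set `I` of
integers in `[0, √X / 11000]`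

* `p_t (n + i)`, `i ∈ I`, have an odd sum for at least `c X ^ (1 / 2 - ε)` of the integers `n ≤ X`;
* they have an even sum for at least `√(t X) / 10 ^ 4` of the integers `n ≤ X`.

So no nontrivial linear relation modulo 2 between consecutive values of `p_t`, of order at most
`√X / 11000`, holds for all `n ≤ X` outside of a set of fewer than `c X ^ (1 / 2 - ε)` integers.
The case `t = 1` is in `Results/MP_ebc808_nt/LinearPatternsManyTimes`.

Method. Let `M = 4 ^ j = s ^ 2`, let `E` be the sum of the `q ^ g` over the generalised pentagonal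
numbers `g` and `B = c(q) ∑ p_t n q ^ n` modulo 2, where `c(q) = ∑ q ^ (L - i)`, `L = max I`. As
`E ^ M = E(q ^ M)` we have `B E(q ^ M) = c(q) E` if `t = M - 1`, and `B E ^ 3 (q ^ M) = c(q) E ^ 3` if
`t = 3 (M - 1)`; here `E ^ 3` is the sum of the `q ^ T` over the triangular numbers `T`. Odd sums: the
coefficient of `q ^ g` on the right is 1 for a pentagonal number `g` larger than a multiple of `L ^ 2`, so
some `B_a` with `a = g - M g'` is 1, and `24 a + 1 - M = u ^ 2 - (s v) ^ 2` is not zero modulo 4; each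
`a` comes from at most as many `g` as `24 a + 1 - M` has divisors, and `a > L`. Even sums: the
relations at `M g - h + r` and `M g + r` have numbers of terms of different parities, and for most
`(g, r)` the right hand sides vanish; so one of the terms vanishes. An index `a` is counted
`O(√(X / M))` times.
-/

namespace Pool.Agent.Results.MP_a3366f_nt.LinearPatternsManyTimes

open Finset Pool.Agent.Y927

/-- the number of `t`-multipartitions of `n`: the coefficient of `q ^ n` in `∏ 1 / (1 - q ^ i) ^ t` -/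
def multipartitions (t n : ℕ) : ℕ :=
  ∑ x ∈ Finset.Nat.antidiagonalTuple t n, ∏ i, Fintype.card (Nat.Partition (x i))

theorem mp_eq (t n : ℕ) : multipartitions t n = Pool.Agent.H413R3.Part.mp t n := rfl

theorem odd_iff (t : ℕ) (I : Finset ℕ) (n : ℕ) :
    Odd (∑ i ∈ I, multipartitions t (n + i)) ↔
      PT.ps (fun n => (Pool.Agent.H413R3.Part.mp t n : ZMod 2)) I n ≠ 0 := by
  unfold PT.ps
  rw [← Nat.cast_sum, Ne, ZMod.natCast_eq_zero_iff, ← even_iff_two_dvd, Nat.not_even_iff_odd]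
  rfl

theorem even_iff (t : ℕ) (I : Finset ℕ) (n : ℕ) :
    Even (∑ i ∈ I, multipartitions t (n + i)) ↔
      PT.ps (fun n => (Pool.Agent.H413R3.Part.mp t n : ZMod 2)) I n = 0 := by
  unfold PT.ps
  rw [← Nat.cast_sum, ZMod.natCast_eq_zero_iff, ← even_iff_two_dvd]
  rfl

/-- For every `ε > 0` there is `c > 0` such that for `t = 4 ^ j - 1` and for `t = 3 (4 ^ j - 1)`,
`j ≥ 1`, all `X ≥ 10 ^ 9 t ^ 2` and all nonempty sets `I` of integers in `[0, √X / 11000]` the sum of
the `p_t (n + i)`, `i ∈ I`, is odd for at least `c X ^ (1 / 2 - ε)` and even for at least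
`√(t X) / 10 ^ 4` of the integers `0 ≤ n ≤ X`. -/
theorem result (ε : ℝ) (hε : 0 < ε) : ∃ c : ℝ, 0 < c ∧ ∀ j t : ℕ, 1 ≤ j →
    (t = 4 ^ j - 1 ∨ t = 3 * (4 ^ j - 1)) → ∀ X : ℕ, 10 ^ 9 * t ^ 2 ≤ X →
    ∀ I : Finset ℕ, I.Nonempty → (∀ i ∈ I, (i : ℝ) ≤ Real.sqrt X / 11000) →
      c * (X : ℝ) ^ (1 / 2 - ε) ≤ (((range (X + 1)).filter
        (fun n => Odd (∑ i ∈ I, multipartitions t (n + i)))).card : ℝ) ∧
      Real.sqrt (t * X) / 10 ^ 4 ≤ (((range (X + 1)).filter
        (fun n => Even (∑ i ∈ I, multipartitions t (n + i)))).card : ℝ) := by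
  obtain ⟨c, hc, h⟩ := PT.odd_real ε hε
  refine ⟨c, hc, fun j t hj ht X hX I hI hIX => ?_⟩
  have h4 : (4 : ℕ) ^ j = (2 ^ j) ^ 2 := by rw [← pow_mul, mul_comm, pow_mul]; norm_num
  have h41 : 4 ≤ 4 ^ j := by
    calc 4 = 4 ^ 1 := by norm_num
      _ ≤ 4 ^ j := Nat.pow_le_pow_right (by norm_num) hj
  have hs : 1 ≤ 2 ^ j := Nat.one_le_pow _ _ (by norm_num)
  have hs2 : 2 ∣ 2 ^ j := dvd_pow_self 2 (by omega)
  have ht1 : 1 ≤ t := by omega
  have hX9 : 10 ^ 9 ≤ X := by
    have : 1 ≤ t ^ 2 := Nat.one_le_pow _ _ ht1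
    omega
  have hst : (2 ^ j) ^ 2 ≤ 2 * t := by rw [← h4]; omega
  have hts : t ≤ 3 * (2 ^ j) ^ 2 := by rw [← h4]; omega
  have hXr : (10 : ℝ) ^ 9 * (t : ℝ) ^ 2 ≤ X := by exact_mod_cast hX
  have htr : (1 : ℝ) ≤ t := by exact_mod_cast ht1
  have hR : 30000 * (t : ℝ) ≤ Real.sqrt X := by
    apply Real.le_sqrt_of_sq_le
    nlinarith
  have hstr : (((2 ^ j : ℕ) : ℝ)) ^ 2 ≤ 2 * t := by exact_mod_cast hst
  have htsr : (t : ℝ) ≤ 3 * (((2 ^ j : ℕ) : ℝ)) ^ 2 := by exact_mod_cast hts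
  have hsX : (((2 ^ j : ℕ) : ℝ)) ^ 2 ≤ Real.sqrt X / 100 := by linarith
  set L := I.max' hI with hLdef
  have hL : L ∈ I := I.max'_mem hI
  have hIL : ∀ i ∈ I, i ≤ L := fun i hi => I.le_max' i hi
  have hLX := hIX L hL
  have hodd : c * (X : ℝ) ^ (1 / 2 - ε) ≤ (((range (X + 1)).filter
      (fun n => PT.ps (fun n => (Pool.Agent.H413R3.Part.mp t n : ZMod 2)) I n ≠ 0)).card : ℝ) := by
    rcases ht with rfl | rfl
    · apply h 24 (2 ^ j) L X _ le_rfl hs hX9 hsX hLX
      intro D k0 k1 hD h0 h01 h02 hk1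
      exact PT.odd_gen (PT.sys_pent j) PT.fam24 (fun k _ => PT.pent_one k) hs2 hs hIL hL hD h0 h01
        h02 hk1
    · apply h 8 (2 ^ j) L X _ (by norm_num) hs hX9 hsX hLX
      intro D k0 k1 hD h0 h01 h02 hk1
      exact PT.odd_gen (PT.sys_tri j) PT.fam8 (fun k _ => PT.tri_one k) hs2 hs hIL hL hD h0 h01
        h02 hk1
  have heven : ((2 ^ j : ℕ) : ℝ) * Real.sqrt X / 5200 ≤ (((range (X + 1)).filter
      (fun n => PT.ps (fun n => (Pool.Agent.H413R3.Part.mp t n : ZMod 2)) I n = 0)).card : ℝ) := by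
    rcases ht with rfl | rfl
    · exact PT.even_real (PT.sys_pent j) PT.fam24 (fun k _ => PT.sys_pent_c1 j k) hs hIL hX9 hsX hLX
    · exact PT.even_real (PT.sys_tri j) PT.fam8 (fun k _ => PT.sys_tri_c1 j k) hs hIL hX9 hsX hLX
  constructor
  · refine hodd.trans (le_of_eq ?_)
    congr 1
    congr 1
    apply filter_congr
    intro n _
    rw [odd_iff]
  · have hsq : Real.sqrt (t * X) ≤ (10 ^ 4 / 5200 : ℝ) * (((2 ^ j : ℕ) : ℝ) * Real.sqrt X) := by
      rw [Real.sqrt_mul (by positivity)]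
      have h1 : Real.sqrt t ≤ (10 ^ 4 / 5200 : ℝ) * ((2 ^ j : ℕ) : ℝ) := by
        apply Real.sqrt_le_iff.2
        constructor
        · positivity
        · have : (0 : ℝ) ≤ (((2 ^ j : ℕ) : ℝ)) ^ 2 := by positivity
          nlinarith
      calc Real.sqrt t * Real.sqrt X ≤ (10 ^ 4 / 5200 : ℝ) * ((2 ^ j : ℕ) : ℝ) * Real.sqrt X :=
            mul_le_mul_of_nonneg_right h1 (Real.sqrt_nonneg _)
        _ = _ := by ring
    have h2 : Real.sqrt (t * X) / 10 ^ 4 ≤ ((2 ^ j : ℕ) : ℝ) * Real.sqrt X / 5200 := by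
      rw [div_le_div_iff₀ (by norm_num) (by norm_num)]
      nlinarith
    refine h2.trans (heven.trans (le_of_eq ?_))
    congr 1
    congr 1
    apply filter_congr
    intro n _
    rw [even_iff]

end Pool.Agent.Results.MP_a3366f_nt.LinearPatternsManyTimes
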